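import Pool.Agent.N463.MI.Stm

set_option autoImplicit false
set_option linter.style.haveILetI false

/-!
# MI/H02: generating function by the largest part
-/

open Finset
open scoped PowerSeries.WithPiTopology

namespace Pool.Agent.N531.MI

open Pool.Agent.N463.MI

/-- the largest part -/
def lp {n : ℕ} (p : n.Partition) : ℕ := p.parts.toFinset.sup id

theorem lp_mem {n : ℕ} (hn : 1 ≤ n) (p : n.Partition) : lp p ∈ p.parts.toFinset := by
  have h0 : p.parts.toFinset.Nonempty := by
    rw [Finset.nonempty_iff_ne_empty]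
    intro h
    rw [Multiset.toFinset_eq_empty] at h
    have := p.parts_sum
    rw [h] at this
    simp at this
    omega
  obtain ⟨x, hx, hx2⟩ := Finset.exists_mem_eq_sup _ h0 id
  unfold lp
  rw [hx2]
  exact hx

theorem lp_pos {n : ℕ} (hn : 1 ≤ n) (p : n.Partition) : 1 ≤ lp p :=
  p.parts_pos (Multiset.mem_toFinset.1 (lp_mem hn p))

theorem lp_le {n : ℕ} (hn : 1 ≤ n) (p : n.Partition) : lp p ≤ n := by
  have h := Multiset.mem_toFinset.1 (lp_mem hn p)
  have h2 := Multiset.single_le_sum (fun _ _ => Nat.zero_le _) _ h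
  rw [p.parts_sum] at h2
  exact h2

theorem missing_add {n : ℕ} (hn : 1 ≤ n) (p : n.Partition) :
    missing p + p.parts.toFinset.card = lp p := by
  classical
  have h1 := Finset.card_filter_add_card_filter_not (s := Finset.Ico 1 (lp p))
    (fun i => i ∉ p.parts)
  have h2 : (Finset.Ico 1 (lp p)).filter (fun i => ¬ i ∉ p.parts) = p.parts.toFinset.erase (lp p) := by
    ext i
    simp only [Finset.mem_filter, Finset.mem_Ico, not_not, Finset.mem_erase, Multiset.mem_toFinset]
    constructor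
    · rintro ⟨⟨h3, h4⟩, h5⟩
      exact ⟨by omega, h5⟩
    · rintro ⟨h3, h4⟩
      have h5 : i ≤ lp p := Finset.le_sup (f := id) (Multiset.mem_toFinset.2 h4)
      exact ⟨⟨p.parts_pos h4, by omega⟩, h4⟩
  rw [h2, Finset.card_erase_of_mem (lp_mem hn p), Nat.card_Ico] at h1
  have h3 : missing p = ((Finset.Ico 1 (lp p)).filter (fun i => i ∉ p.parts)).card := rfl
  have h4 : 0 < p.parts.toFinset.card := Finset.card_pos.2 ⟨_, lp_mem hn p⟩
  have h5 := lp_pos hn p
  omega

theorem sign_eq {n : ℕ} (hn : 1 ≤ n) (p : n.Partition) (b : ℤ) :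
    (-1) ^ missing p * b ^ p.parts.toFinset.card =
      (-1) ^ lp p * (-b) ^ p.parts.toFinset.card := by
  rw [← missing_add hn p, pow_add, neg_pow b, mul_assoc]
  congr 1
  rw [← mul_assoc, ← pow_add, ← two_mul, pow_mul]
  norm_num

/-- the weight -/
def ff (b : ℤ) (l : ℕ) (i _c : ℕ) : ℤ := if i ≤ l then -b else 0

theorem coeff_ff (b : ℤ) (l n : ℕ) :
    PowerSeries.coeff n (Nat.Partition.genFun (ff b l)) =
      ∑ p : n.Partition, if lp p ≤ l then (-b) ^ p.parts.toFinset.card else 0 := by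
  rw [Nat.Partition.coeff_genFun]
  refine Finset.sum_congr rfl fun p _ => ?_
  rw [Finsupp.prod, Multiset.toFinsupp_support]
  simp only [ff]
  split_ifs with h
  · rw [← Finset.prod_const]
    refine Finset.prod_congr rfl fun i hi => ?_
    rw [if_pos]
    exact (Finset.le_sup (f := id) hi).trans h
  · have : ∃ i ∈ p.parts.toFinset, ¬ i ≤ l := by
      by_contra hcon
      push Not at hcon
      exact h (Finset.sup_le hcon)
    obtain ⟨i, hi, hi2⟩ := this
    exact Finset.prod_eq_zero hi (if_neg hi2)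

theorem factor_eq (b : ℤ) (i : ℕ) : letI : TopologicalSpace ℤ := ⊥
    1 + ∑' j : ℕ, (-b) • (PowerSeries.X : PowerSeries ℤ) ^ ((i + 1) * (j + 1)) =
      (1 - PowerSeries.C (b + 1) * PowerSeries.X ^ (i + 1)) *
        PowerSeries.invOfUnit (1 - PowerSeries.X ^ (i + 1)) 1 := by
  let _ : TopologicalSpace ℤ := ⊥
  have _ : DiscreteTopology ℤ := ⟨rfl⟩
  have hu : (1 - (PowerSeries.X : PowerSeries ℤ) ^ (i + 1)) *
      PowerSeries.invOfUnit (1 - PowerSeries.X ^ (i + 1)) 1 = 1 := by
    apply PowerSeries.mul_invOfUnit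
    simp
  have hs : Summable fun j : ℕ => ((PowerSeries.X : PowerSeries ℤ) ^ (i + 1)) ^ j :=
    PowerSeries.WithPiTopology.summable_pow_of_constantCoeff_eq_zero (by simp)
  have h1 : ∑' j : ℕ, (-b) • (PowerSeries.X : PowerSeries ℤ) ^ ((i + 1) * (j + 1)) =
      PowerSeries.C (-b) * (PowerSeries.X ^ (i + 1) *
        ∑' j : ℕ, ((PowerSeries.X : PowerSeries ℤ) ^ (i + 1)) ^ j) := by
    rw [← hs.tsum_mul_left, ← (hs.mul_left _).tsum_mul_left]
    refine tsum_congr fun j => ?_
    rw [zsmul_eq_mul, pow_mul, pow_succ', eq_intCast (PowerSeries.C (R := ℤ)) (-b)]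
  have h2 : (∑' j : ℕ, ((PowerSeries.X : PowerSeries ℤ) ^ (i + 1)) ^ j) *
      (1 - PowerSeries.X ^ (i + 1)) = 1 :=
    PowerSeries.WithPiTopology.tsum_pow_mul_one_sub_of_constantCoeff_eq_zero (by simp)
  rw [h1]
  set S := ∑' j : ℕ, ((PowerSeries.X : PowerSeries ℤ) ^ (i + 1)) ^ j with hS
  set V := PowerSeries.invOfUnit (1 - (PowerSeries.X : PowerSeries ℤ) ^ (i + 1)) 1 with hV
  have h3 : S = V := by
    calc S = S * ((1 - PowerSeries.X ^ (i + 1)) * V) := by rw [hu, mul_one]
      _ = S * (1 - PowerSeries.X ^ (i + 1)) * V := by ring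
      _ = V := by rw [h2, one_mul]
  rw [h3]
  have h4 : (PowerSeries.C (b + 1) : PowerSeries ℤ) = PowerSeries.C b + 1 := by
    rw [map_add, map_one]
  have h5 : (PowerSeries.C (-b) : PowerSeries ℤ) = - PowerSeries.C b := by
    rw [map_neg]
  rw [h4, h5]
  linear_combination (-1 : PowerSeries ℤ) * hu

theorem genFun_ff (b : ℤ) (l : ℕ) : Nat.Partition.genFun (ff b l) = DD (b + 1) l := by
  let _ : TopologicalSpace ℤ := ⊥
  have _ : DiscreteTopology ℤ := ⟨rfl⟩
  have h1 := Nat.Partition.hasProd_genFun (ff b l)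
  have h2 : ∀ i ∉ range l, (1 : PowerSeries ℤ) + ∑' j, ff b l (i + 1) (j + 1) •
      PowerSeries.X ^ ((i + 1) * (j + 1)) = 1 := by
    intro i hi
    rw [Finset.mem_range] at hi
    have : ∀ j : ℕ, ff b l (i + 1) (j + 1) •
      (PowerSeries.X : PowerSeries ℤ) ^ ((i + 1) * (j + 1)) = 0 := by
      intro j
      rw [ff, if_neg (by omega), zero_smul]
    simp [this]
  have h3 : HasProd (fun i => (1 : PowerSeries ℤ) + ∑' j, ff b l (i + 1) (j + 1) •
      PowerSeries.X ^ ((i + 1) * (j + 1))) (∏ i ∈ range l, ((1 : PowerSeries ℤ) +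
      ∑' j, ff b l (i + 1) (j + 1) • PowerSeries.X ^ ((i + 1) * (j + 1)))) :=
    hasProd_prod_of_ne_finset_one h2
  rw [h1.unique h3, DD]
  refine Finset.prod_congr rfl fun i hi => ?_
  rw [Finset.mem_range] at hi
  rw [← factor_eq]
  congr 1
  refine tsum_congr fun j => ?_
  rw [ff, if_pos (by omega)]

theorem t_H02 : H02 := by
  intro b n hn
  have e : ∀ l, PowerSeries.coeff n (DD (b + 1) l) =
      ∑ p : n.Partition, if lp p ≤ l then (-b) ^ p.parts.toFinset.card else 0 := fun l => by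
    rw [← genFun_ff, coeff_ff]
  simp only [e]
  have e2 : ∀ l, ((∑ p : n.Partition, if lp p ≤ l + 1 then (-b) ^ p.parts.toFinset.card else 0) -
      ∑ p : n.Partition, if lp p ≤ l then (-b) ^ p.parts.toFinset.card else 0) =
      ∑ p : n.Partition, if lp p = l + 1 then (-b) ^ p.parts.toFinset.card else 0 := by
    intro l
    rw [← Finset.sum_sub_distrib]
    refine Finset.sum_congr rfl fun p _ => ?_
    by_cases h1 : lp p ≤ l
    · rw [if_pos (by omega), if_pos h1, if_neg (by omega), sub_self]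
    · by_cases h2 : lp p = l + 1
      · rw [if_pos (by omega), if_neg h1, if_pos h2, sub_zero]
      · rw [if_neg (by omega), if_neg h1, if_neg h2, sub_zero]
  simp only [e2, Finset.mul_sum]
  rw [Finset.sum_comm, ws]
  refine Finset.sum_congr rfl fun p _ => ?_
  rw [sign_eq hn p b]
  have h1 := lp_pos hn p
  have h2 := lp_le hn p
  rw [Finset.sum_eq_single (lp p - 1)]
  · rw [if_pos (by omega)]
    congr 2
    omega
  · intro l _ hl
    rw [if_neg (by omega), mul_zero]
  · intro h
    exfalso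
    apply h
    rw [Finset.mem_range]
    omega

end Pool.Agent.N531.MI
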